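import Pool.Agent.Helper10.SP.GoalsE

open Complex Metric Set Filter Topology MeasureTheory
open scoped ContDiff ComplexConjugate

namespace Pool.Agent.Helper36.SP

open Pool.Agent.Helper10.SP

theorem hyer_mul {X : Type} {F : ℂ → X → ℂ} {ε K : ℝ}
    (h : ∀ w w' x, ‖F (w + w') x - F w x - F w' x‖ ≤ ε * ‖w'‖ + K) (w : ℂ) (x : X) (n : ℕ)
    (hK : 0 ≤ ε * ‖w‖ + K) :
    ‖F ((n + 1 : ℕ) * w) x - (n + 1 : ℕ) * F w x‖ ≤ (n + 1 : ℕ) * (ε * ‖w‖ + K) := by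
  induction n with
  | zero => simpa using hK
  | succ n ih =>
    have h1 := h ((n + 1 : ℕ) * w) w x
    have e1 : ((n + 1 + 1 : ℕ) : ℂ) * w = (n + 1 : ℕ) * w + w := by push_cast; ring
    have e2 : F ((n + 1 + 1 : ℕ) * w) x - (n + 1 + 1 : ℕ) * F w x
        = (F ((n + 1 : ℕ) * w + w) x - F ((n + 1 : ℕ) * w) x - F w x)
          + (F ((n + 1 : ℕ) * w) x - (n + 1 : ℕ) * F w x) := by
      rw [e1]; push_cast; ring
    rw [e2]
    refine (norm_add_le _ _).trans ?_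
    push_cast at *
    linarith

theorem hyer_cmp {X : Type} {F : ℂ → X → ℂ} {ε K : ℝ} (hε : 0 ≤ ε) (hK : 0 ≤ K)
    (h : ∀ w w' x, ‖F (w + w') x - F w x - F w' x‖ ≤ ε * ‖w'‖ + K) (w : ℂ) (x : X) (n m : ℕ) :
    ‖F ((n + 1 : ℕ) * ((m + 1 : ℕ) * w)) x / ((n + 1 : ℕ) * (m + 1 : ℕ)) - F ((m + 1 : ℕ) * w) x / (m + 1 : ℕ)‖
      ≤ ε * ‖w‖ + K / (m + 1 : ℕ) := by
  have hm : (0 : ℝ) < (m + 1 : ℕ) := by positivity
  have hn : (0 : ℝ) < (n + 1 : ℕ) := by positivity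
  have hmc : ((m + 1 : ℕ) : ℂ) ≠ 0 := by exact_mod_cast (Nat.succ_ne_zero m)
  have hnc : ((n + 1 : ℕ) : ℂ) ≠ 0 := by exact_mod_cast (Nat.succ_ne_zero n)
  have h1 := hyer_mul h ((m + 1 : ℕ) * w) x n (by positivity)
  have e : F ((n + 1 : ℕ) * ((m + 1 : ℕ) * w)) x / ((n + 1 : ℕ) * (m + 1 : ℕ)) - F ((m + 1 : ℕ) * w) x / (m + 1 : ℕ)
      = (F ((n + 1 : ℕ) * ((m + 1 : ℕ) * w)) x - (n + 1 : ℕ) * F ((m + 1 : ℕ) * w) x)
        / ((n + 1 : ℕ) * (m + 1 : ℕ)) := by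
    field_simp
  rw [e, norm_div, norm_mul, Complex.norm_natCast, Complex.norm_natCast, div_le_iff₀ (by positivity)]
  refine h1.trans ?_
  rw [norm_mul, Complex.norm_natCast]
  have : (ε * ‖w‖ + K / (m + 1 : ℕ)) * ((n + 1 : ℕ) * (m + 1 : ℕ)) = (n + 1 : ℕ) * (ε * ((m + 1 : ℕ) * ‖w‖) + K) := by
    field_simp
  rw [this]

/-- HYER: almost additive maps. -/
theorem hyer : S_HYER := by
  intro X F hF ⟨K₀, hK₀⟩
  -- nonnegative constants
  have hF' : ∀ ε > 0, ∃ K : ℝ, 0 ≤ K ∧ ∀ w w' x, ‖F (w + w') x - F w x - F w' x‖ ≤ ε * ‖w'‖ + K := by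
    intro ε hε
    obtain ⟨K, hK⟩ := hF ε hε
    exact ⟨max K 0, le_max_right _ _, fun w w' x => (hK w w' x).trans (by
      have := le_max_left K 0; linarith)⟩
  -- the Cauchy property
  have hcau : ∀ w x, CauchySeq fun n : ℕ => F ((n + 1 : ℕ) * w) x / (n + 1 : ℕ) := by
    intro w x
    rw [Metric.cauchySeq_iff]
    intro δ hδ
    obtain ⟨K, hK0, hK⟩ := hF' (δ / (8 * (‖w‖ + 1))) (by positivity)
    obtain ⟨N, hN⟩ := exists_nat_gt (8 * K / δ)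
    have key : ∀ n ≥ N, ∀ m ≥ N, ‖F ((n + 1 : ℕ) * ((m + 1 : ℕ) * w)) x / ((n + 1 : ℕ) * (m + 1 : ℕ)) - F ((m + 1 : ℕ) * w) x / (m + 1 : ℕ)‖ ≤ δ / 4 := by
      intro n _ m hm
      refine (hyer_cmp (by positivity) hK0 hK w x n m).trans ?_
      have a1 : δ / (8 * (‖w‖ + 1)) * ‖w‖ ≤ δ / 8 := by
        rw [div_mul_eq_mul_div, div_le_div_iff₀ (by positivity) (by positivity)]
        nlinarith [norm_nonneg w]
      have a2 : K / (m + 1 : ℕ) ≤ δ / 8 := by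
        have hmN : (N : ℝ) ≤ m := by exact_mod_cast hm
        rw [div_le_div_iff₀ (by positivity) (by positivity)]
        rw [div_lt_iff₀ hδ] at hN
        push_cast
        nlinarith
      linarith
    refine ⟨N, fun m hm n hn => ?_⟩
    rw [dist_eq_norm]
    have h1 := key n hn m hm
    have h2 := key m hm n hn
    have e : ((m + 1 : ℕ) : ℂ) * ((n + 1 : ℕ) * w) = (n + 1 : ℕ) * ((m + 1 : ℕ) * w) := by ring
    have e' : ((m + 1 : ℕ) : ℂ) * (n + 1 : ℕ) = (n + 1 : ℕ) * (m + 1 : ℕ) := by ring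
    rw [e, e'] at h2
    have e3 : F ((m + 1 : ℕ) * w) x / (m + 1 : ℕ) - F ((n + 1 : ℕ) * w) x / (n + 1 : ℕ)
        = (F ((n + 1 : ℕ) * ((m + 1 : ℕ) * w)) x / ((n + 1 : ℕ) * (m + 1 : ℕ)) - F ((n + 1 : ℕ) * w) x / (n + 1 : ℕ))
          - (F ((n + 1 : ℕ) * ((m + 1 : ℕ) * w)) x / ((n + 1 : ℕ) * (m + 1 : ℕ)) - F ((m + 1 : ℕ) * w) x / (m + 1 : ℕ)) := by ring
    rw [e3]
    refine (norm_sub_le _ _).trans_lt ?_
    linarith
  choose Λ hΛ using fun w x => cauchySeq_tendsto_of_complete (hcau w x)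
  -- (2)
  have hcmp : ∀ ε > 0, ∃ K : ℝ, ∀ w x, ‖F w x - Λ w x‖ ≤ ε * ‖w‖ + K := by
    intro ε hε
    obtain ⟨K, hK0, hK⟩ := hF' ε hε
    refine ⟨K, fun w x => ?_⟩
    rw [norm_sub_rev]
    have h1 : Tendsto (fun n : ℕ => ‖F ((n + 1 : ℕ) * w) x / (n + 1 : ℕ) - F w x‖) atTop (𝓝 ‖Λ w x - F w x‖) :=
      ((hΛ w x).sub_const _).norm
    refine le_of_tendsto h1 (Filter.Eventually.of_forall fun n => ?_)
    have := hyer_cmp hε.le hK0 hK w x n 0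
    simpa using this
  -- additivity
  have hnat : Tendsto (fun n : ℕ => ((n + 1 : ℕ) : ℝ)) atTop atTop := by
    exact tendsto_natCast_atTop_atTop.comp (tendsto_add_atTop_nat 1)
  have hadd : ∀ w w' x, Λ (w + w') x = Λ w x + Λ w' x := by
    intro w w' x
    rw [← sub_eq_zero, ← norm_eq_zero]
    refine le_antisymm (le_of_forall_pos_le_add fun δ hδ => ?_) (norm_nonneg _)
    obtain ⟨K, hK0, hK⟩ := hF' (δ / (‖w'‖ + 1)) (by positivity)
    have h1 : Tendsto (fun n : ℕ => ‖F ((n + 1 : ℕ) * (w + w')) x / (n + 1 : ℕ) - (F ((n + 1 : ℕ) * w) x / (n + 1 : ℕ) + F ((n + 1 : ℕ) * w') x / (n + 1 : ℕ))‖) atTop (𝓝 ‖Λ (w + w') x - (Λ w x + Λ w' x)‖) :=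
      ((hΛ (w + w') x).sub ((hΛ w x).add (hΛ w' x))).norm
    have h2 : Tendsto (fun n : ℕ => δ / (‖w'‖ + 1) * ‖w'‖ + K / (n + 1 : ℕ)) atTop (𝓝 (δ / (‖w'‖ + 1) * ‖w'‖ + 0)) :=
      tendsto_const_nhds.add (tendsto_const_nhds.div_atTop hnat)
    have h3 := le_of_tendsto_of_tendsto' h1 h2 (fun n => by
      have hn : (0 : ℝ) < (n + 1 : ℕ) := by positivity
      have hnc : ((n + 1 : ℕ) : ℂ) ≠ 0 := by exact_mod_cast (Nat.succ_ne_zero n)
      have e : F ((n + 1 : ℕ) * (w + w')) x / (n + 1 : ℕ) - (F ((n + 1 : ℕ) * w) x / (n + 1 : ℕ) + F ((n + 1 : ℕ) * w') x / (n + 1 : ℕ))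
          = (F ((n + 1 : ℕ) * w + (n + 1 : ℕ) * w') x - F ((n + 1 : ℕ) * w) x - F ((n + 1 : ℕ) * w') x) / (n + 1 : ℕ) := by
        rw [mul_add]; field_simp; ring
      rw [e, norm_div, Complex.norm_natCast, div_le_iff₀ hn]
      refine (hK _ _ _).trans ?_
      rw [norm_mul, Complex.norm_natCast]
      have : (δ / (‖w'‖ + 1) * ‖w'‖ + K / (n + 1 : ℕ)) * (n + 1 : ℕ) = δ / (‖w'‖ + 1) * ((n + 1 : ℕ) * ‖w'‖) + K := by
        field_simp
      rw [this])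
    refine h3.trans ?_
    have : δ / (‖w'‖ + 1) * ‖w'‖ ≤ δ := by
      rw [div_mul_eq_mul_div, div_le_iff₀ (by positivity)]
      nlinarith [norm_nonneg w']
    linarith
  have hbd : ∀ w x, ‖Λ w x‖ ≤ |K₀| * ‖w‖ := by
    intro w x
    have h1 : Tendsto (fun n : ℕ => ‖F ((n + 1 : ℕ) * w) x / (n + 1 : ℕ)‖) atTop (𝓝 ‖Λ w x‖) := (hΛ w x).norm
    have h2 : Tendsto (fun n : ℕ => |K₀| * ‖w‖ + |K₀| / (n + 1 : ℕ)) atTop (𝓝 (|K₀| * ‖w‖ + 0)) :=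
      tendsto_const_nhds.add (tendsto_const_nhds.div_atTop hnat)
    have h3 := le_of_tendsto_of_tendsto' h1 h2 (fun n => by
      have hn : (0 : ℝ) < (n + 1 : ℕ) := by positivity
      rw [norm_div, Complex.norm_natCast, div_le_iff₀ hn]
      refine (hK₀ _ _).trans ?_
      rw [norm_mul, Complex.norm_natCast]
      have e : (|K₀| * ‖w‖ + |K₀| / (n + 1 : ℕ)) * (n + 1 : ℕ) = |K₀| * (1 + (n + 1 : ℕ) * ‖w‖) := by
        field_simp; ring
      rw [e]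
      exact mul_le_mul_of_nonneg_right (le_abs_self _) (by positivity))
    simpa using h3
  refine ⟨Λ, hadd, ?_, hcmp⟩
  intro r w x
  let f : ℝ →+ ℂ := AddMonoidHom.mk' (fun r : ℝ => Λ (r * w) x) (fun a b => by
    rw [← hadd]; congr 1; push_cast; ring)
  have hfc : Continuous f := by
    refine AddMonoidHomClass.continuous_of_bound f (|K₀| * ‖w‖) (fun r => ?_)
    refine (hbd _ _).trans ?_
    rw [norm_mul, Complex.norm_real]
    exact le_of_eq (by ring)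
  have := (f.toRealLinearMap hfc).map_smul r 1
  have h2 : f (r * 1) = r • f 1 := by simpa using this
  have h3 : f (r * 1) = Λ (r * w) x := by
    change Λ (((r * 1 : ℝ) : ℂ) * w) x = _
    rw [mul_one]
  have h4 : f 1 = Λ w x := by
    change Λ (((1 : ℝ) : ℂ) * w) x = _
    rw [Complex.ofReal_one, one_mul]
  rw [h3, h4] at h2
  rw [h2, Complex.real_smul]

end Pool.Agent.Helper36.SP
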