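import Pool.Agent.Helper10.SP.GoalsT

open Complex Metric Set Filter Topology MeasureTheory
open scoped ContDiff ComplexConjugate

namespace Pool.Agent.Helper36.SP

open Pool.Agent.Helper10.SP Pool.Agent.Helper95.Lin

theorem nrm_toLp {α : Type*} [MeasurableSpace α] {μ : Measure α} {g : α → ℂ} (hg : MemLp g 2 μ) :
    ‖hg.toLp‖ ^ 2 = ∫ x, ‖g x‖ ^ 2 ∂μ := by
  have h0 : (0 : ℝ) ≤ ∫ x, ‖g x‖ ^ 2 ∂μ := integral_nonneg fun x => by positivity
  rw [Lp.norm_toLp, hg.eLpNorm_eq_integral_rpow_norm (by norm_num) (by norm_num)]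
  rw [ENNReal.toReal_ofReal (by positivity)]
  have e : (2 : ENNReal).toReal = 2 := by norm_num
  rw [e]
  have e2 : (∫ x, ‖g x‖ ^ (2 : ℝ) ∂μ) = ∫ x, ‖g x‖ ^ 2 ∂μ := by
    congr 1; ext x; exact Real.rpow_two _
  rw [e2, ← Real.rpow_two, ← Real.rpow_mul h0]
  norm_num

/-- limits in `L²` of a Cauchy sequence -/
theorem exL2 {α : Type*} [MeasurableSpace α] {μ : Measure α} {s : ℕ → α → ℂ}
    (hs : ∀ j, MemLp (s j) 2 μ)
    (hc : ∀ ε > 0, ∃ J, ∀ i ≥ J, ∀ j ≥ J, ∫ x, ‖s i x - s j x‖ ^ 2 ∂μ ≤ ε) :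
    ∃ f : α → ℂ, MemLp f 2 μ ∧ Tendsto (fun j => ∫ x, ‖s j x - f x‖ ^ 2 ∂μ) atTop (𝓝 0) := by
  have hcs : CauchySeq fun j => (hs j).toLp (s j) := by
    rw [Metric.cauchySeq_iff]
    intro ε hε
    obtain ⟨J, hJ⟩ := hc ((ε / 2) ^ 2) (by positivity)
    refine ⟨J, fun i hi j hj => ?_⟩
    rw [dist_eq_norm, ← MemLp.toLp_sub]
    have h1 := nrm_toLp ((hs i).sub (hs j))
    have h2 := hJ i hi j hj
    have h3 : ‖((hs i).sub (hs j)).toLp (s i - s j)‖ ^ 2 ≤ (ε / 2) ^ 2 := by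
      rw [h1]; exact h2
    have h4 := abs_le_of_sq_le_sq' h3 (by positivity)
    linarith [h4.2]
  obtain ⟨F, hF⟩ := cauchySeq_tendsto_of_complete hcs
  have hFm : MemLp (F : α → ℂ) 2 μ := Lp.memLp F
  refine ⟨F, hFm, ?_⟩
  have e : ∀ j, ∫ x, ‖s j x - F x‖ ^ 2 ∂μ = ‖(hs j).toLp (s j) - F‖ ^ 2 := by
    intro j
    have h1 := nrm_toLp ((hs j).sub hFm)
    have h2 : ((hs j).sub hFm).toLp (s j - (F : α → ℂ)) = (hs j).toLp (s j) - F := by
      rw [MemLp.toLp_sub (hs j) hFm, Lp.toLp_coeFn F hFm]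
    rw [← h2, h1]
    rfl
  simp_rw [e]
  have h3 : Tendsto (fun j => ‖(hs j).toLp (s j) - F‖ ^ 2) atTop (𝓝 (0 ^ 2)) :=
    (tendsto_iff_norm_sub_tendsto_zero.mp hF).pow 2
  simpa using h3

/-- uniqueness of `L²` limits -/
theorem uniqL2 {α : Type*} [MeasurableSpace α] {μ : Measure α} {s : ℕ → α → ℂ}
    (hs : ∀ j, MemLp (s j) 2 μ) {f g : α → ℂ} (hf : MemLp f 2 μ) (hg : MemLp g 2 μ)
    (h1 : Tendsto (fun j => ∫ x, ‖s j x - f x‖ ^ 2 ∂μ) atTop (𝓝 0))
    (h2 : Tendsto (fun j => ∫ x, ‖s j x - g x‖ ^ 2 ∂μ) atTop (𝓝 0)) : f =ᵐ[μ] g := by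
  have key : ∀ {f : α → ℂ} (hf : MemLp f 2 μ),
      Tendsto (fun j => ∫ x, ‖s j x - f x‖ ^ 2 ∂μ) atTop (𝓝 0) →
      Tendsto (fun j => (hs j).toLp (s j)) atTop (𝓝 (hf.toLp f)) := by
    intro f hf h
    rw [tendsto_iff_norm_sub_tendsto_zero]
    have h3 : Tendsto (fun j => Real.sqrt (∫ x, ‖s j x - f x‖ ^ 2 ∂μ)) atTop (𝓝 (Real.sqrt 0)) :=
      (Real.continuous_sqrt.tendsto 0).comp h
    rw [Real.sqrt_zero] at h3
    refine h3.congr fun j => ?_
    rw [← MemLp.toLp_sub]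
    have h4 := nrm_toLp ((hs j).sub hf)
    have h5 : ∫ x, ‖s j x - f x‖ ^ 2 ∂μ = ‖((hs j).sub hf).toLp (s j - f)‖ ^ 2 := h4.symm
    rw [h5]
    exact Real.sqrt_sq (norm_nonneg _)
  have h := tendsto_nhds_unique (key hf h1) (key hg h2)
  exact (MemLp.toLp_eq_toLp_iff hf hg).mp h

/-- L2LIM: completeness of `L²_loc`. -/
theorem l2lim : S_L2LIM := by
  intro n T hT s hs hc
  have hmem : ∀ j, ∀ C ⊆ T, IsCompact C → MemLp (s j) 2 (volume.restrict C) := by
    intro j C hCT hC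
    have hcont : ContinuousOn (s j) C := (hs j).mono hCT
    obtain ⟨B, hB⟩ := hC.exists_bound_of_continuousOn hcont
    have : IsFiniteMeasure (volume.restrict C) :=
      ⟨by rw [Measure.restrict_apply_univ]; exact hC.measure_lt_top⟩
    exact MemLp.of_bound (hcont.aestronglyMeasurable hC.measurableSet) B
      ((ae_restrict_iff' hC.measurableSet).mpr (Eventually.of_forall hB))
  obtain ⟨F, hFc, hFT, hFU, hFm⟩ := hT.exists_iUnion_isClosed
  let K : ℕ → Set (Cn n) := fun k => F k ∩ closedBall 0 k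
  have hKc : ∀ k, IsCompact (K k) := fun k => (isCompact_closedBall 0 (k : ℝ)).inter_left (hFc k)
  have hKT : ∀ k, K k ⊆ T := fun k => inter_subset_left.trans (hFT k)
  have hKU : ∀ x ∈ T, ∃ k, x ∈ K k := by
    intro x hx
    rw [← hFU] at hx
    obtain ⟨k, hk⟩ := mem_iUnion.mp hx
    obtain ⟨m, hm⟩ := exists_nat_ge ‖x‖
    refine ⟨max k m, hFm (le_max_left k m) hk, ?_⟩
    rw [mem_closedBall, dist_zero_right]
    refine hm.trans ?_
    exact_mod_cast le_max_right k m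
  have hex : ∀ C : Set (Cn n), C ⊆ T → IsCompact C → ∃ f : Cn n → ℂ, MemLp f 2 (volume.restrict C) ∧
      Tendsto (fun j => ∫ x in C, ‖s j x - f x‖ ^ 2) atTop (𝓝 0) := fun C hCT hC =>
    exL2 (fun j => hmem j C hCT hC) (hc C hCT hC)
  choose f hf using fun k => hex (K k) (hKT k) (hKc k)
  classical
  let g : Cn n → ℂ := fun x => if h : ∃ k, x ∈ K k then f (Nat.find h) x else 0
  have hg : ∀ C : Set (Cn n), C ⊆ T → IsCompact C → ∀ fC : Cn n → ℂ, MemLp fC 2 (volume.restrict C) →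
      Tendsto (fun j => ∫ x in C, ‖s j x - fC x‖ ^ 2) atTop (𝓝 0) →
      g =ᵐ[volume.restrict C] fC := by
    intro C hCT hC fC hm ht
    have h1 : ∀ k, ∀ᵐ x ∂(volume.restrict C), x ∈ K k → f k x = fC x := by
      intro k
      have hms : MeasurableSet (K k) := (hKc k).measurableSet
      rw [← ae_restrict_iff' hms, Measure.restrict_restrict hms]
      have hint : ∀ {A : Set (Cn n)}, A ⊆ T → IsCompact A → K k ∩ C ⊆ A → ∀ {u : Cn n → ℂ},
          MemLp u 2 (volume.restrict A) → Tendsto (fun j => ∫ x in A, ‖s j x - u x‖ ^ 2) atTop (𝓝 0) →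
          MemLp u 2 (volume.restrict (K k ∩ C)) ∧
            Tendsto (fun j => ∫ x in K k ∩ C, ‖s j x - u x‖ ^ 2) atTop (𝓝 0) := by
        intro A hAT hA hsub u hu htu
        refine ⟨hu.mono_measure (Measure.restrict_mono hsub le_rfl), ?_⟩
        refine squeeze_zero (fun j => integral_nonneg fun x => by positivity) (fun j => ?_) htu
        refine setIntegral_mono_set ?_ (Eventually.of_forall fun x => by positivity)
          (LE.le.eventuallyLE hsub)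
        exact ((hmem j A hAT hA).sub hu).integrable_norm_pow (p := 2) (by norm_num)
      obtain ⟨a1, a2⟩ := hint (hKT k) (hKc k) inter_subset_left (hf k).1 (hf k).2
      obtain ⟨b1, b2⟩ := hint hCT hC inter_subset_right hm ht
      exact uniqL2 (fun j => hmem j _ (inter_subset_left.trans (hKT k)) ((hKc k).inter_right hC.isClosed)) a1 b1 a2 b2
    have h2 := ae_all_iff.mpr h1
    have h3 : ∀ᵐ x ∂(volume.restrict C), x ∈ C := ae_restrict_mem hC.measurableSet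
    filter_upwards [h2, h3] with x hx hxC
    have hxk : ∃ k, x ∈ K k := hKU x (hCT hxC)
    simp only [g, dif_pos hxk]
    exact hx _ (Nat.find_spec hxk)
  refine ⟨g, fun C hCT hC => ?_⟩
  obtain ⟨fC, hm, ht⟩ := hex C hCT hC
  have hae := hg C hCT hC fC hm ht
  refine ⟨(memLp_congr_ae hae).mpr hm, ht.congr fun j => ?_⟩
  refine integral_congr_ae ?_
  filter_upwards [hae] with x hx
  rw [hx]

end Pool.Agent.Helper36.SP
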